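import Mathlib
import Pool.Agent.Q64.Shoot.Final

/-! # MP_30ce6b_an: positive solutions of `Δψ = (|ψ|^(2p-2) - |x|⁻¹) ψ` for every `p > 1`

For every `p > 1` the equation `(E_p)` has a positive (hence nontrivial) solution `ψ ∈ M`; it can
be taken continuous on `ℝ³`, radial and nonincreasing in `|x|`. -/

namespace Pool.Agent.Results.MP_30ce6b_an.PositiveSolution

open MeasureTheory Set Filter Topology
open scoped ContDiff

abbrev E3 := EuclideanSpace ℝ (Fin 3)

/-- the partial derivative `∂ᵢη` -/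
noncomputable def pd (i : Fin 3) (η : E3 → ℝ) (x : E3) : ℝ :=
  fderiv ℝ η x (EuclideanSpace.single i 1)

/-- `η ∈ C_c^∞(ℝ³)` -/
def IsTest (η : E3 → ℝ) : Prop := ContDiff ℝ ∞ η ∧ HasCompactSupport η

/-- `ψ ∈ M` with distributional gradient `g`: `ψ ∈ L¹_loc`, `g` is measurable with
`|g|² ∈ L¹_loc`, and `∫ ψ ∂ᵢη = -∫ gᵢ η` for all test functions `η`. -/
structure InM (ψ : E3 → ℝ) (g : E3 → E3) : Prop where
  locInt : LocallyIntegrable ψ
  meas : AEStronglyMeasurable g
  sq_locInt : LocallyIntegrable fun x => ‖g x‖ ^ 2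
  weak : ∀ η, IsTest η → ∀ i, ∫ x, ψ x * pd i η x = -∫ x, g x i * η x

/-- `ψ ∈ M` is a solution of `(E_p)` (with `|x|⁻¹ ψ ∈ L¹_loc` recorded too, so that each term of
the equation is locally integrable). -/
structure IsSolution (p : ℝ) (ψ : E3 → ℝ) : Prop where
  power_locInt : LocallyIntegrable fun x => |ψ x| ^ (2 * p - 1)
  potential_locInt : LocallyIntegrable fun x => ‖x‖⁻¹ * ψ x
  eq : ∃ g : E3 → E3, InM ψ g ∧ ∀ η, IsTest η →
    (∫ x, ∑ i, pd i η x * g x i) + ∫ x, η x * ((|ψ x| ^ (2 * p - 2) - ‖x‖⁻¹) * ψ x) = 0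

/-- For every `p > 1` (in particular for `p ∈ (1, 3/2] ∪ [2, ∞)`) the equation `(E_p)` has a
solution `ψ ∈ M` which is positive everywhere; moreover `ψ` is continuous on `ℝ³`, and radial and
nonincreasing in `|x|`. -/
theorem result (p : ℝ) (hp : 1 < p) :
    ∃ ψ : E3 → ℝ, IsSolution p ψ ∧ (∀ x, 0 < ψ x) ∧ Continuous ψ ∧
      ∀ x y, ‖x‖ ≤ ‖y‖ → ψ y ≤ ψ x := by
  have hq : 1 < 2 * p - 1 := by linarith
  obtain ⟨A, a, φ, ha, haA, h, hpos, hD⟩ := Pool.Agent.Q64.SH.exists_radial hq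
  have hφ := h.cont
  have hψc : Continuous fun x : E3 => φ ‖x‖ := hφ.comp continuous_norm
  have hmono : ∀ s t, 0 ≤ s → s ≤ t → φ t ≤ φ s := fun s t hs hst =>
    h.anti hs hst fun x hx => hD x (hs.trans hx.1.le)
  have hle : ∀ r, 0 ≤ r → φ r ≤ A := fun r hr => by
    have := hmono 0 r le_rfl hr
    rw [h.zero] at this
    exact this.trans haA
  have hFF : ∀ x : E3, Pool.Agent.Q64.SH.FF (2 * p - 1) A (φ ‖x‖) = φ ‖x‖ ^ (2 * p - 1) :=
    fun x => Pool.Agent.Q64.SH.FF_eq (hpos _ (norm_nonneg x)).le (hle _ (norm_nonneg x))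
  have hDc := h.DD_cont
  refine ⟨fun x => φ ‖x‖, ⟨?_, ?_, ?_⟩, fun x => hpos _ (norm_nonneg x), hψc,
    fun x y hxy => hmono _ _ (norm_nonneg x) hxy⟩
  · refine Continuous.locallyIntegrable ?_
    exact hψc.abs.rpow_const fun x => Or.inr (by linarith)
  · have h1 : LocallyIntegrable (fun x : E3 => ‖x‖⁻¹) := by
      intro x
      refine ⟨Metric.ball 0 (‖x‖ + 1), Metric.isOpen_ball.mem_nhds ?_,
        Pool.Agent.Q64.SH.inv_norm_intOn _⟩
      rw [mem_ball_zero_iff]; linarith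
    have h2 : LocallyIntegrable (fun x : E3 => φ ‖x‖ • ‖x‖⁻¹) := by
      have := h1.continuous_smul hψc
      exact this
    refine h2.congr ?_
    exact Eventually.of_forall fun x => by simp [mul_comm]
  · refine ⟨Pool.Agent.Q64.SH.gr (Pool.Agent.Q64.SH.FF (2 * p - 1) A) φ, ⟨?_, ?_, ?_, ?_⟩, ?_⟩
    · exact hψc.locallyIntegrable
    · have c1 : Measurable fun x : E3 => (Pool.Agent.Q64.SH.DD
          (Pool.Agent.Q64.SH.FF (2 * p - 1) A) φ ‖x‖ * ‖x‖⁻¹) • x :=
        ((hDc.measurable.comp measurable_norm).mul measurable_norm.inv).smul measurable_id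
      exact c1.aestronglyMeasurable
    · have c1 : LocallyIntegrable fun x : E3 => (Pool.Agent.Q64.SH.DD
          (Pool.Agent.Q64.SH.FF (2 * p - 1) A) φ ‖x‖) ^ 2 :=
        ((hDc.comp continuous_norm).pow 2).locallyIntegrable
      refine c1.congr ?_
      filter_upwards [Pool.Agent.Q64.SH.ae_ne] with x hx
      rw [Pool.Agent.Q64.SH.gr_norm hx, sq_abs]
    · intro η hη i
      exact (Pool.Agent.Q64.SH.weak_sol h hη.1 hη.2).1 i
    · intro η hη
      have h2 := (Pool.Agent.Q64.SH.weak_sol h hη.1 hη.2).2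
      rw [← h2]
      congr 1
      refine integral_congr_ae (Eventually.of_forall fun x => ?_)
      have hp0 := hpos _ (norm_nonneg x)
      simp only
      rw [hFF x, abs_of_pos hp0, sub_mul]
      congr 2
      have : 2 * p - 1 = (2 * p - 2) + 1 := by ring
      rw [this, Real.rpow_add_one hp0.ne']

end Pool.Agent.Results.MP_30ce6b_an.PositiveSolution
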